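import Pool.Agent.helper93.SF.DIV

/-! ENC: conservation of energy. -/

set_option autoImplicit false

namespace SF

open MeasureTheory Filter
open scoped ContDiff Topology

theorem ENC_cont3 (f : ℝ → ℝ → ℝ → ℝ) (hf : Sm f) :
    ContinuousOn (fun q : ℝ × ℝ × ℝ => f q.1 q.2.1 q.2.2) {q | 0 < q.2.2} := hf.continuousOn

theorem ENC_cont2 (f : ℝ → ℝ → ℝ → ℝ)
    (hf : ContinuousOn (fun q : ℝ × ℝ × ℝ => f q.1 q.2.1 q.2.2) {q | 0 < q.2.2}) (s : ℝ) :
    ContinuousOn (fun p : ℝ × ℝ => f s p.1 p.2) {p | 0 < p.2} := by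
  have h : ContinuousOn (fun p : ℝ × ℝ => ((s, p) : ℝ × ℝ × ℝ)) {p : ℝ × ℝ | 0 < p.2} := by
    fun_prop
  exact hf.comp h fun p hp => hp

/-- bounds for `y ≥ 1` extend to `Dm`, locally uniformly in `s` -/
theorem ENC_bd (G : ℝ → ℝ → ℝ → ℝ)
    (hG : ContinuousOn (fun q : ℝ × ℝ × ℝ => G q.1 q.2.1 q.2.2) {q | 0 < q.2.2}) (S C : ℝ)
    (h : ∀ s x y, |s| ≤ S → 1 ≤ y → |G s x y| ≤ C / y ^ 2) :
    ∃ K : ℝ, ∀ s, |s| ≤ S → ∀ p ∈ Dm, |G s p.1 p.2| ≤ K / p.2 ^ 2 := by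
  have hsub : Set.Icc (-S) S ×ˢ (Set.Icc (0 : ℝ) (1 / 2) ×ˢ Set.Icc (1 / 2 : ℝ) 1) ⊆
      {q : ℝ × ℝ × ℝ | 0 < q.2.2} := by
    rintro q ⟨-, -, h2, -⟩
    exact lt_of_lt_of_le (by norm_num) h2
  obtain ⟨B, hB⟩ := (isCompact_Icc.prod (isCompact_Icc.prod
    isCompact_Icc)).exists_bound_of_continuousOn (hG.mono hsub)
  refine ⟨|B| + |C|, fun s hs p hp => ?_⟩
  obtain ⟨h1, h2, h3, h4⟩ := hp
  rw [le_div_iff₀ (by positivity)]
  rcases le_or_gt 1 p.2 with h5 | h5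
  · have h6 := h s p.1 p.2 hs h5
    rw [le_div_iff₀ (by positivity)] at h6
    calc |G s p.1 p.2| * p.2 ^ 2 ≤ C := h6
      _ ≤ |C| := le_abs_self C
      _ ≤ |B| + |C| := by linarith [abs_nonneg B]
  · have h7 : 1 / 2 ≤ p.2 := by
      by_contra hc
      push Not at hc
      nlinarith
    have h6 := hB (s, p) ⟨abs_le.1 hs, ⟨h1.le, h2.le⟩, h7, h5.le⟩
    rw [Real.norm_eq_abs] at h6
    have h8 : p.2 ^ 2 ≤ 1 := pow_le_one₀ h3.le h5.le
    calc |G s p.1 p.2| * p.2 ^ 2 ≤ |G s p.1 p.2| * 1 :=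
          mul_le_mul_of_nonneg_left h8 (abs_nonneg _)
      _ ≤ |B| := by
          rw [mul_one]
          exact h6.trans (le_abs_self B)
      _ ≤ |B| + |C| := by linarith [abs_nonneg C]

/-- the density of the energy -/
noncomputable def ENC_e (f : ℝ → ℝ → ℝ → ℝ) (s x y : ℝ) : ℝ :=
  (dS f s x y) ^ 2 / (4 * y ^ 2) + (dX f s x y) ^ 2 + (dY f s x y) ^ 2 - (f s x y) ^ 2 / (4 * y ^ 2)

/-- its time derivative -/
noncomputable def ENC_d (f : ℝ → ℝ → ℝ → ℝ) (s x y : ℝ) : ℝ :=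
  2 * (dS f s x y * dS (dS f) s x y / (4 * y ^ 2) + dX f s x y * dX (dS f) s x y +
    dY f s x y * dY (dS f) s x y - f s x y * dS f s x y / (4 * y ^ 2))

theorem ENC_ec (hBS : BS_stmt) (f : ℝ → ℝ → ℝ → ℝ) (hf : Sm f) :
    ContinuousOn (fun q : ℝ × ℝ × ℝ => ENC_e f q.1 q.2.1 q.2.2) {q | 0 < q.2.2} := by
  obtain ⟨h1, h2, h3, -⟩ := hBS f hf
  have c0 := ENC_cont3 f hf
  have c1 := ENC_cont3 _ h1
  have c2 := ENC_cont3 _ h2
  have c3 := ENC_cont3 _ h3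
  have cy : ContinuousOn (fun q : ℝ × ℝ × ℝ => 4 * q.2.2 ^ 2) {q | 0 < q.2.2} := by fun_prop
  have hy : ∀ q ∈ {q : ℝ × ℝ × ℝ | 0 < q.2.2}, 4 * q.2.2 ^ 2 ≠ 0 := fun q hq => by
    have : 0 < q.2.2 := hq
    positivity
  exact ((((c1.pow 2).div cy hy).add (c2.pow 2)).add (c3.pow 2)).sub ((c0.pow 2).div cy hy)

theorem ENC_dc (hBS : BS_stmt) (f : ℝ → ℝ → ℝ → ℝ) (hf : Sm f) :
    ContinuousOn (fun q : ℝ × ℝ × ℝ => ENC_d f q.1 q.2.1 q.2.2) {q | 0 < q.2.2} := by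
  obtain ⟨h1, h2, h3, -⟩ := hBS f hf
  obtain ⟨h4, h5, h6, -⟩ := hBS _ h1
  have c0 := ENC_cont3 f hf
  have c1 := ENC_cont3 _ h1
  have c2 := ENC_cont3 _ h2
  have c3 := ENC_cont3 _ h3
  have c4 := ENC_cont3 _ h4
  have c5 := ENC_cont3 _ h5
  have c6 := ENC_cont3 _ h6
  have cy : ContinuousOn (fun q : ℝ × ℝ × ℝ => 4 * q.2.2 ^ 2) {q | 0 < q.2.2} := by fun_prop
  have hy : ∀ q ∈ {q : ℝ × ℝ × ℝ | 0 < q.2.2}, 4 * q.2.2 ^ 2 ≠ 0 := fun q hq => by
    have : 0 < q.2.2 := hq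
    positivity
  exact (((((c1.mul c4).div cy hy).add (c2.mul c5)).add (c3.mul c6)).sub
    ((c0.mul c1).div cy hy)).const_smul (2 : ℝ)

/-- decay of a product: `|a| ≤ A / y ^ i` and `|b| ≤ B / y ^ j`, `i, j ≥ 1` -/
theorem ENC_pr (a b A B y : ℝ) (i j : ℕ) (hi : 1 ≤ i) (hj : 1 ≤ j) (hy : 1 ≤ y)
    (ha : |a| ≤ A / y ^ i) (hb : |b| ≤ B / y ^ j) : |a * b| ≤ |A| * |B| / y ^ 2 := by
  have hy0 : 0 < y := by linarith
  have h1 : |a| ≤ |A| / y := by
    calc |a| ≤ A / y ^ i := ha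
      _ ≤ |A| / y ^ i := div_le_div_of_nonneg_right (le_abs_self A) (by positivity)
      _ ≤ |A| / y := div_le_div_of_nonneg_left (abs_nonneg _) hy0 (le_self_pow₀ hy (by omega))
  have h2 : |b| ≤ |B| / y := by
    calc |b| ≤ B / y ^ j := hb
      _ ≤ |B| / y ^ j := div_le_div_of_nonneg_right (le_abs_self B) (by positivity)
      _ ≤ |B| / y := div_le_div_of_nonneg_left (abs_nonneg _) hy0 (le_self_pow₀ hy (by omega))
  rw [abs_mul]
  calc |a| * |b| ≤ |A| / y * (|B| / y) := mul_le_mul h1 h2 (abs_nonneg _) (by positivity)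
    _ = |A| * |B| / y ^ 2 := by field_simp

theorem ENC_dv (a y : ℝ) (hy : 1 ≤ y) : |a / (4 * y ^ 2)| ≤ |a| := by
  rw [abs_div]
  have h1 : 1 ≤ |4 * y ^ 2| := by
    rw [abs_of_pos (by positivity)]
    nlinarith
  exact div_le_self (abs_nonneg _) h1

/-- the densities decay -/
theorem ENC_dec (f : ℝ → ℝ → ℝ → ℝ) (hf : EW f) (S : ℝ) : ∃ C : ℝ, ∀ s x y, |s| ≤ S → 1 ≤ y →
    |ENC_e f s x y| ≤ C / y ^ 2 ∧ |ENC_d f s x y| ≤ C / y ^ 2 ∧
    |dS f s x y * dY f s x y| ≤ C / y ^ 2 := by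
  obtain ⟨C0, h0⟩ := hf.dec 0 S
  obtain ⟨C1, h1⟩ := hf.dec 1 S
  obtain ⟨C2, h2⟩ := hf.dec 2 S
  refine ⟨4 * (|C0| + |C1| + |C2|) ^ 2, fun s x y hs hy => ?_⟩
  have hy0 : 0 < y := by linarith
  obtain ⟨a1, a2, a3⟩ := h0 s x y hs hy
  obtain ⟨b1, b2, b3⟩ := h1 s x y hs hy
  obtain ⟨d1, d2, d3⟩ := h2 s x y hs hy
  simp only [Function.iterate_zero, id_eq, Function.iterate_succ, Function.comp_apply] at *
  have e0 : ∀ {a A : ℝ}, |a| ≤ A / y → |a| ≤ A / y ^ 1 := fun h => by rwa [pow_one]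
  have A0 := abs_nonneg C0
  have A1 := abs_nonneg C1
  have A2 := abs_nonneg C2
  have key : ∀ t : ℝ, t ≤ 4 * (|C0| + |C1| + |C2|) ^ 2 →
      t / y ^ 2 ≤ 4 * (|C0| + |C1| + |C2|) ^ 2 / y ^ 2 := fun t ht =>
    div_le_div_of_nonneg_right ht (by positivity)
  refine ⟨?_, ?_, ?_⟩
  · unfold ENC_e
    have p1 := ENC_pr _ _ _ _ y 1 1 le_rfl le_rfl hy (e0 b1) (e0 b1)
    have p2 := ENC_pr _ _ _ _ y 2 2 (by norm_num) (by norm_num) hy a2 a2
    have p3 := ENC_pr _ _ _ _ y 2 2 (by norm_num) (by norm_num) hy a3 a3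
    have p4 := ENC_pr _ _ _ _ y 1 1 le_rfl le_rfl hy (e0 a1) (e0 a1)
    rw [← pow_two] at p1 p2 p3 p4
    have q1 := (ENC_dv (dS f s x y ^ 2) y hy).trans p1
    have q4 := (ENC_dv (f s x y ^ 2) y hy).trans p4
    refine le_trans ?_ (key (|C1| * |C1| + |C0| * |C0| + |C0| * |C0| + |C0| * |C0|) (by nlinarith))
    calc |dS f s x y ^ 2 / (4 * y ^ 2) + dX f s x y ^ 2 + dY f s x y ^ 2 -
          f s x y ^ 2 / (4 * y ^ 2)|
        ≤ |dS f s x y ^ 2 / (4 * y ^ 2)| + |dX f s x y ^ 2| + |dY f s x y ^ 2| +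
          |f s x y ^ 2 / (4 * y ^ 2)| :=
          (abs_sub _ _).trans (add_le_add ((abs_add_le _ _).trans
            (add_le_add (abs_add_le _ _) le_rfl)) le_rfl)
      _ ≤ |C1| * |C1| / y ^ 2 + |C0| * |C0| / y ^ 2 + |C0| * |C0| / y ^ 2 + |C0| * |C0| / y ^ 2 :=
          add_le_add (add_le_add (add_le_add q1 p2) p3) q4
      _ = _ := by ring
  · unfold ENC_d
    have p1 := ENC_pr _ _ _ _ y 1 1 le_rfl le_rfl hy (e0 b1) (e0 d1)
    have p2 := ENC_pr _ _ _ _ y 2 2 (by norm_num) (by norm_num) hy a2 b2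
    have p3 := ENC_pr _ _ _ _ y 2 2 (by norm_num) (by norm_num) hy a3 b3
    have p4 := ENC_pr _ _ _ _ y 1 1 le_rfl le_rfl hy (e0 a1) (e0 b1)
    have q1 := (ENC_dv (dS f s x y * dS (dS f) s x y) y hy).trans p1
    have q4 := (ENC_dv (f s x y * dS f s x y) y hy).trans p4
    refine le_trans ?_ (key (2 * (|C1| * |C2| + |C0| * |C1| + |C0| * |C1| + |C0| * |C1|))
      (by nlinarith))
    rw [abs_mul, abs_of_pos (by norm_num : (0 : ℝ) < 2)]
    calc 2 * |dS f s x y * dS (dS f) s x y / (4 * y ^ 2) + dX f s x y * dX (dS f) s x y +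
          dY f s x y * dY (dS f) s x y - f s x y * dS f s x y / (4 * y ^ 2)|
        ≤ 2 * (|dS f s x y * dS (dS f) s x y / (4 * y ^ 2)| + |dX f s x y * dX (dS f) s x y| +
          |dY f s x y * dY (dS f) s x y| + |f s x y * dS f s x y / (4 * y ^ 2)|) :=
          mul_le_mul_of_nonneg_left ((abs_sub _ _).trans (add_le_add ((abs_add_le _ _).trans
            (add_le_add (abs_add_le _ _) le_rfl)) le_rfl)) (by norm_num)
      _ ≤ 2 * (|C1| * |C2| / y ^ 2 + |C0| * |C1| / y ^ 2 + |C0| * |C1| / y ^ 2 +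
          |C0| * |C1| / y ^ 2) :=
          mul_le_mul_of_nonneg_left (add_le_add (add_le_add (add_le_add q1 p2) p3) q4)
            (by norm_num)
      _ = _ := by ring
  · have p1 := ENC_pr _ _ _ _ y 1 2 le_rfl (by norm_num) hy (e0 b1) a3
    exact p1.trans (key _ (by nlinarith))

/-- the time derivative of the density -/
theorem ENC_hd (hBS : BS_stmt) (f : ℝ → ℝ → ℝ → ℝ) (hf : Sm f) (s x y : ℝ) (hy : 0 < y) :
    HasDerivAt (fun t => ENC_e f t x y) (ENC_d f s x y) s := by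
  obtain ⟨h1, h2, h3, h4⟩ := hBS f hf
  obtain ⟨-, -, -, k1⟩ := hBS _ h1
  obtain ⟨-, -, -, k2⟩ := hBS _ h2
  obtain ⟨-, -, -, k3⟩ := hBS _ h3
  obtain ⟨d0, -, -, e1, e2, -⟩ := h4 s x y hy
  have d1 := (k1 s x y hy).1
  have d2 := (k2 s x y hy).1
  have d3 := (k3 s x y hy).1
  rw [e1] at d2
  rw [e2] at d3
  have h := ((((d1.pow 2).div_const (4 * y ^ 2)).add (d2.pow 2)).add (d3.pow 2)).sub
    ((d0.pow 2).div_const (4 * y ^ 2))
  refine h.congr_deriv ?_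
  unfold ENC_d
  push_cast
  ring

/-- ENC -/
theorem ENC (hBS : BS_stmt) (hEWC : EWC_stmt) (hEZ : EZ_stmt) (hDI : DI_stmt) (hDX : DX_stmt)
    (hDY : DY_stmt) : ENC_stmt := by
  intro f hf
  have hfs : EW (dS f) := hEWC.1 f hf
  obtain ⟨s1, s2, s3, h4⟩ := hBS f hf.sm
  obtain ⟨t1, t2, t3, k1⟩ := hBS _ s1
  obtain ⟨u1, u2, u3, k2⟩ := hBS _ s2
  obtain ⟨v1, v2, v3, k3⟩ := hBS _ s3
  have hder : ∀ s, HasDerivAt (En f) 0 s := by
    intro s
    obtain ⟨C, hC⟩ := ENC_dec f hf (|s| + 1)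
    obtain ⟨K, hK⟩ := ENC_bd (ENC_d f) (ENC_dc hBS f hf.sm) (|s| + 1) C
      fun s x y hs hy => (hC s x y hs hy).2.1
    have hm : ∀ (G : ℝ → ℝ → ℝ → ℝ),
        ContinuousOn (fun q : ℝ × ℝ × ℝ => G q.1 q.2.1 q.2.2) {q | 0 < q.2.2} → ∀ t,
        AEStronglyMeasurable (fun p : ℝ × ℝ => G t p.1 p.2) (volume.restrict Dm) := fun G hG t =>
      ((ENC_cont2 G hG t).mono DIV_sub).aestronglyMeasurable DIV_meas
    have h := hasDerivAt_integral_of_dominated_loc_of_deriv_le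
      (μ := volume.restrict Dm) (F := fun t (p : ℝ × ℝ) => ENC_e f t p.1 p.2)
      (F' := fun t (p : ℝ × ℝ) => ENC_d f t p.1 p.2) (x₀ := s) (s := Metric.ball s 1)
      (bound := fun p : ℝ × ℝ => K / p.2 ^ 2) (Metric.ball_mem_nhds s one_pos)
      (Eventually.of_forall (hm _ (ENC_ec hBS f hf.sm)))
      (hDI _ C (ENC_cont2 _ (ENC_ec hBS f hf.sm) s) fun p _ hp2 =>
        (hC s p.1 p.2 (by linarith) hp2).1)
      (hm _ (ENC_dc hBS f hf.sm) s)
      (by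
        filter_upwards [ae_restrict_mem DIV_meas] with p hp t ht
        rw [Real.norm_eq_abs]
        refine hK t ?_ p hp
        rw [Metric.mem_ball, Real.dist_eq] at ht
        calc |t| = |(t - s) + s| := by ring_nf
          _ ≤ |t - s| + |s| := abs_add_le _ _
          _ ≤ |s| + 1 := by linarith)
      (hDI _ |K| (by
        refine continuousOn_const.div (by fun_prop) fun p hp => ?_
        have : 0 < p.2 := hp
        positivity) fun p hp hp2 => by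
          rw [abs_div, abs_of_nonneg (by positivity : (0 : ℝ) ≤ p.2 ^ 2)])
      (by
        filter_upwards [ae_restrict_mem DIV_meas] with p hp t _
        exact ENC_hd hBS f hf.sm t p.1 p.2 hp.2.2.1)
    have h5 := h.2
    have h6 : ∫ p in Dm, ENC_d f s p.1 p.2 = 0 := by
      have e1 : ∀ p : ℝ × ℝ, 0 < p.2 → ENC_d f s p.1 p.2 =
          2 * ((dX (dS f) s p.1 p.2 * dX f s p.1 p.2 + dS f s p.1 p.2 * dX (dX f) s p.1 p.2) +
            (dY (dS f) s p.1 p.2 * dY f s p.1 p.2 + dS f s p.1 p.2 * dY (dY f) s p.1 p.2)) := by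
        intro p hp
        unfold ENC_d
        rw [hf.wv s p.1 p.2 hp]
        field_simp
        ring
      have hD := DIV hDI hDX hDY (fun p => dS f s p.1 p.2 * dX f s p.1 p.2)
        (fun p => dX (dS f) s p.1 p.2 * dX f s p.1 p.2 + dS f s p.1 p.2 * dX (dX f) s p.1 p.2)
        (fun p => dS f s p.1 p.2 * dY f s p.1 p.2)
        (fun p => dY (dS f) s p.1 p.2 * dY f s p.1 p.2 + dS f s p.1 p.2 * dY (dY f) s p.1 p.2)
        (((ENC_cont2 _ (ENC_cont3 _ t2) s).mul (ENC_cont2 _ (ENC_cont3 _ s2) s)).add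
          ((ENC_cont2 _ (ENC_cont3 _ s1) s).mul (ENC_cont2 _ (ENC_cont3 _ u2) s)))
        ((ENC_cont2 _ (ENC_cont3 _ s1) s).mul (ENC_cont2 _ (ENC_cont3 _ s3) s))
        (((ENC_cont2 _ (ENC_cont3 _ t3) s).mul (ENC_cont2 _ (ENC_cont3 _ s3) s)).add
          ((ENC_cont2 _ (ENC_cont3 _ s1) s).mul (ENC_cont2 _ (ENC_cont3 _ v3) s)))
        (fun x y hy => (k1 s x y hy).2.1.mul (k2 s x y hy).2.1)
        (fun x y hy => (k1 s x y hy).2.2.1.mul (k3 s x y hy).2.2.1)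
        (fun y hy => by
          obtain ⟨z1, z2, -, -⟩ := hEZ _ hfs s y hy
          exact ⟨by show dS f s 0 y * dX f s 0 y = 0; rw [z1, zero_mul],
            by show dS f s (1 / 2) y * dX f s (1 / 2) y = 0; rw [z2, zero_mul]⟩)
        (fun x y hy hc => by
          obtain ⟨-, -, z3, -⟩ := hEZ _ hfs s y hy
          show dS f s x y * dX f s x y = 0
          rw [z3 x hc, zero_mul])
        (fun x y hy hc => by
          obtain ⟨-, -, z3, -⟩ := hEZ _ hfs s y hy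
          show dS f s x y * dY f s x y = 0
          rw [z3 x hc, zero_mul])
        ⟨|C|, fun p _ hp2 => by
          refine ((hC s p.1 p.2 (by linarith) hp2).2.2).trans ?_
          have hp0 : 0 < p.2 := by linarith
          calc C / p.2 ^ 2 ≤ |C| / p.2 ^ 2 :=
                div_le_div_of_nonneg_right (le_abs_self C) (by positivity)
            _ ≤ |C| / p.2 := div_le_div_of_nonneg_left (abs_nonneg _) hp0
                (le_self_pow₀ hp2 (by norm_num))⟩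
        ⟨C / 2, fun p hp hp2 => by
          have h7 := (hC s p.1 p.2 (by linarith) hp2).2.1
          rw [e1 p hp.2.2.1, abs_mul, abs_of_pos (by norm_num : (0 : ℝ) < 2)] at h7
          have h8 : C / 2 / p.2 ^ 2 = C / p.2 ^ 2 / 2 := by ring
          rw [h8]
          linarith⟩
      rw [setIntegral_congr_fun DIV_meas (fun p hp => e1 p hp.2.2.1), integral_const_mul, hD.2,
        mul_zero]
    rw [h6] at h5
    exact h5
  intro s s'
  exact is_const_of_deriv_eq_zero (fun t => (hder t).differentiableAt)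
    (fun t => (hder t).deriv) s s'

end SF
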