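import Pool.Agent.helper68.SF.SpecS

/-! SN: the wave sum comes back. -/

set_option autoImplicit false

namespace SF

open Pool.Agent.helper72.Sq MeasureTheory Set Filter
open scoped Topology ContDiff

/-- profiles have bounded derivatives -/
theorem SN_Bd (g : ℝ → ℝ) (hg : Prof g) (n : ℕ) : ∃ B : ℝ, 0 < B ∧ Bd n B g := by
  have h1 : ∀ j : ℕ, ∃ M : ℝ, 0 ≤ M ∧ ∀ a, |iteratedDeriv j g a| ≤ M := by
    intro j
    have hc : Continuous (iteratedDeriv j g) :=
      hg.smooth.continuous_iteratedDeriv j (by exact_mod_cast le_top)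
    obtain ⟨M, hM⟩ := isCompact_Icc.exists_bound_of_continuousOn (s := Set.Icc (1 : ℝ) 3)
      hc.continuousOn
    have hz : ∀ (U : Set ℝ) (a : ℝ), U ∈ 𝓝 a → (∀ t ∈ U, g t = 0) → iteratedDeriv j g a = 0 := by
      intro U a hU h0
      have h2 : g =ᶠ[𝓝 a] fun _ => (0 : ℝ) := by
        filter_upwards [hU] with t ht
        exact h0 t ht
      rw [h2.iteratedDeriv_eq j]
      simp
    refine ⟨|M|, abs_nonneg _, fun a => ?_⟩
    rcases lt_or_ge a 1 with h | h
    · rw [hz (Set.Iio 1) a (Iio_mem_nhds h) fun t ht => hg.lo t (le_of_lt ht), abs_zero]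
      exact abs_nonneg _
    rcases lt_or_ge 3 a with h' | h'
    · rw [hz (Set.Ioi 3) a (Ioi_mem_nhds h') fun t ht => hg.hi t (le_of_lt ht), abs_zero]
      exact abs_nonneg _
    · exact (hM a ⟨h, h'⟩).trans (le_abs_self M)
  choose M hM0 hM using h1
  refine ⟨∑ j ∈ Finset.range (n + 1), M j + 1, by
    have := Finset.sum_nonneg fun j (_ : j ∈ Finset.range (n + 1)) => hM0 j
    linarith, fun j hj a => ?_⟩
  have h2 := Finset.single_le_sum (f := M) (fun j _ => hM0 j)
    (Finset.mem_range.2 (Nat.lt_succ_of_le hj))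
  linarith [hM j a]

/-- uniform smallness and a summable bound -/
theorem SN_tail {ι : Type*} (b : ι → ℝ) (hb : Summable b) (hb0 : ∀ w, 0 ≤ b w) (ε : ℝ)
    (hε : 0 < ε) : ∃ δ : ℝ, 0 < δ ∧ ∀ η : ℝ, 0 ≤ η → η ≤ δ → ∀ a : ι → ℝ, (∀ w, |a w| ≤ b w) →
      (∀ w, |a w| ≤ η) → |∑' w, a w| ≤ ε := by
  have h1 : Tendsto (fun t : ℝ => ∑' w, min (b w) t) (𝓝[>] 0) (𝓝 (∑' w : ι, (0 : ℝ))) := by
    refine tendsto_tsum_of_dominated_convergence (bound := b) hb (fun w => ?_) ?_
    · have h2 : Tendsto (fun t : ℝ => min (b w) t) (𝓝 0) (𝓝 (min (b w) 0)) :=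
        tendsto_const_nhds.min tendsto_id
      rw [min_eq_right (hb0 w)] at h2
      exact h2.mono_left nhdsWithin_le_nhds
    · filter_upwards [self_mem_nhdsWithin] with t ht w
      have ht0 : (0 : ℝ) < t := ht
      rw [Real.norm_eq_abs, abs_of_nonneg (le_min (hb0 w) ht0.le)]
      exact min_le_left _ _
  rw [tsum_zero] at h1
  have h3 := (h1.eventually (gt_mem_nhds hε)).and (self_mem_nhdsWithin (s := Set.Ioi (0 : ℝ)))
  obtain ⟨δ, hδ1, hδ2⟩ := h3.exists
  have hδ : (0 : ℝ) < δ := hδ2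
  refine ⟨δ, hδ, fun η hη0 hη a ha1 ha2 => ?_⟩
  have hs : Summable (fun w => |a w|) := Summable.of_nonneg_of_le (fun _ => abs_nonneg _) ha1 hb
  have hs2 : Summable (fun w => min (b w) δ) :=
    Summable.of_nonneg_of_le (fun w => le_min (hb0 w) hδ.le) (fun _ => min_le_left _ _) hb
  calc |∑' w, a w| ≤ ∑' w, |a w| := by
        have := norm_tsum_le_tsum_norm (f := a) hs
        simpa only [Real.norm_eq_abs] using this
    _ ≤ ∑' w, min (b w) δ := hs.tsum_le_tsum (fun w => le_min (ha1 w) ((ha2 w).trans hη)) hs2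
    _ ≤ ε := hδ1.le

/-- one cone -/
theorem SN_cone (hLB : LB_stmt) (hGJB : GJB_stmt) (hSUM : SUM_stmt) (g : ℝ → ℝ) (P : Tri)
    (hg : Prof g) (hP : Adm P) (R ε : ℝ) (hR : 0 < R) (hε : 0 < ε) :
    ∃ δ : ℝ, 0 < δ ∧ ∀ h : ℝ, (∀ l l' : ℝ, 0 < l → 0 < l' →
      |Real.exp (-h) * jj g (Real.exp (-h) * l) (Real.exp (-h) * l') - jj g l l'| ≤
        δ * (1 / l + 1 / l')) →
      |Real.exp (-h) * (∑' w, GJ g (R * Real.exp h) (desc w P)) - ∑' w, GJ g R (desc w P)| ≤ ε := by
  obtain ⟨B, hB0, hB⟩ := SN_Bd g hg 12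
  obtain ⟨c, C0, hc, -, hlen, -⟩ := hLB P hP
  obtain ⟨C, hC, hGJ⟩ := hGJB P hP
  have hS := hSUM P hP
  set b0 : List Bool → ℝ := fun w => C * B * R * Real.exp (-LL (desc w P) / 2) with hb0
  have hLL : ∀ w, 0 ≤ LL (desc w P) := fun w => by
    obtain ⟨h1, h2, -⟩ := hlen w
    unfold LL
    linarith
  have hb0n : ∀ w, 0 ≤ b0 w := fun w => by
    rw [hb0]
    positivity
  have hb0s : Summable b0 := hS.mul_left _
  have hG1 : ∀ w, |GJ g R (desc w P)| ≤ b0 w := fun w => by
    refine (hGJ g B R w hg hB hR).trans ?_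
    refine mul_le_mul_of_nonneg_left (Real.exp_le_exp.2 ?_) (by positivity)
    linarith [hLL w]
  have hG2 : ∀ h w, |Real.exp (-h) * GJ g (R * Real.exp h) (desc w P)| ≤ b0 w := fun h w => by
    have h1 := hGJ g B (R * Real.exp h) w hg hB (by positivity)
    have h2 : Real.exp (-h) * Real.exp h = 1 := by rw [← Real.exp_add]; simp
    rw [abs_mul, abs_of_pos (Real.exp_pos _)]
    calc Real.exp (-h) * |GJ g (R * Real.exp h) (desc w P)|
        ≤ Real.exp (-h) * (C * B * (R * Real.exp h) * Real.exp (-LL (desc w P))) :=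
          mul_le_mul_of_nonneg_left h1 (Real.exp_pos _).le
      _ = (Real.exp (-h) * Real.exp h) * (C * B * R * Real.exp (-LL (desc w P))) := by ring
      _ = C * B * R * Real.exp (-LL (desc w P)) := by rw [h2, one_mul]
      _ ≤ b0 w := by
        refine mul_le_mul_of_nonneg_left (Real.exp_le_exp.2 ?_) (by positivity)
        linarith [hLL w]
  obtain ⟨δ, hδ, hT⟩ := SN_tail (fun w => 2 * b0 w) (hb0s.mul_left 2)
    (fun w => mul_nonneg (by norm_num) (hb0n w)) ε hε
  refine ⟨δ * c / (6 * R), by positivity, fun h hh => ?_⟩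
  have hs1 : Summable (fun w => GJ g R (desc w P)) :=
    Summable.of_norm_bounded hb0s fun w => by rw [Real.norm_eq_abs]; exact hG1 w
  have hs2 : Summable (fun w => Real.exp (-h) * GJ g (R * Real.exp h) (desc w P)) :=
    Summable.of_norm_bounded hb0s fun w => by rw [Real.norm_eq_abs]; exact hG2 h w
  rw [← tsum_mul_left, ← hs2.tsum_sub hs1]
  refine hT δ hδ.le le_rfl _ (fun w => ?_) fun w => ?_
  · calc |Real.exp (-h) * GJ g (R * Real.exp h) (desc w P) - GJ g R (desc w P)|
        ≤ |Real.exp (-h) * GJ g (R * Real.exp h) (desc w P)| + |GJ g R (desc w P)| := abs_sub _ _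
      _ ≤ b0 w + b0 w := add_le_add (hG2 h w) (hG1 w)
      _ = 2 * b0 w := by ring
  · obtain ⟨p1, p2, p3⟩ := hlen w
    have key : ∀ L L' : ℝ, c ≤ L → c ≤ L' →
        |Real.exp (-h) * jj g (L / (R * Real.exp h)) (L' / (R * Real.exp h)) -
          jj g (L / R) (L' / R)| ≤ δ / 3 := by
      intro L L' hL hL'
      have hL0 : 0 < L := lt_of_lt_of_le hc hL
      have hL0' : 0 < L' := lt_of_lt_of_le hc hL'
      have e1 : ∀ t : ℝ, t / (R * Real.exp h) = Real.exp (-h) * (t / R) := fun t => by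
        rw [Real.exp_neg]
        field_simp
      rw [e1, e1]
      refine (hh (L / R) (L' / R) (by positivity) (by positivity)).trans ?_
      have e2 : 1 / (L / R) ≤ R / c := by
        rw [one_div_div]
        exact div_le_div_of_nonneg_left hR.le hc hL
      have e3 : 1 / (L' / R) ≤ R / c := by
        rw [one_div_div]
        exact div_le_div_of_nonneg_left hR.le hc hL'
      calc δ * c / (6 * R) * (1 / (L / R) + 1 / (L' / R))
          ≤ δ * c / (6 * R) * (R / c + R / c) :=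
            mul_le_mul_of_nonneg_left (add_le_add e2 e3) (by positivity)
        _ = δ / 3 := by field_simp; ring
    have k1 := key _ _ p1 p3
    have k2 := key _ _ p3 p2
    have k3 := key _ _ p1 p2
    have e4 : Real.exp (-h) * GJ g (R * Real.exp h) (desc w P) - GJ g R (desc w P) =
        (Real.exp (-h) * jj g (len (desc w P).1 / (R * Real.exp h))
            (len (desc w P).2.2 / (R * Real.exp h)) -
          jj g (len (desc w P).1 / R) (len (desc w P).2.2 / R)) +
        (Real.exp (-h) * jj g (len (desc w P).2.2 / (R * Real.exp h))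
            (len (desc w P).2.1 / (R * Real.exp h)) -
          jj g (len (desc w P).2.2 / R) (len (desc w P).2.1 / R)) -
        (Real.exp (-h) * jj g (len (desc w P).1 / (R * Real.exp h))
            (len (desc w P).2.1 / (R * Real.exp h)) -
          jj g (len (desc w P).1 / R) (len (desc w P).2.1 / R)) := by
      unfold GJ
      ring
    rw [e4]
    refine ((abs_sub _ _).trans (add_le_add (abs_add_le _ _) le_rfl)).trans ?_
    linarith

/-- SN -/
theorem SN (hJN : JN_stmt) (hLB : LB_stmt) (hGJB : GJB_stmt) (hSUM : SUM_stmt) : SN_stmt := by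
  intro g P hg hP R ε T hR hε
  obtain ⟨δ1, hδ1, h1⟩ := SN_cone hLB hGJB hSUM g P hg hP R (ε / 2) hR (by positivity)
  obtain ⟨δ2, hδ2, h2⟩ := SN_cone hLB hGJB hSUM g (Tw P) hg hP.Tw R (ε / 2) hR (by positivity)
  obtain ⟨h, hT, hh⟩ := hJN g hg (min δ1 δ2) T (lt_min hδ1 hδ2)
  have k1 := h1 h fun l l' hl hl' => (hh l l' hl hl').trans
    (mul_le_mul_of_nonneg_right (min_le_left _ _) (by positivity))
  have k2 := h2 h fun l l' hl hl' => (hh l l' hl hl').trans
    (mul_le_mul_of_nonneg_right (min_le_right _ _) (by positivity))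
  refine ⟨h, hT, ?_⟩
  unfold Sw
  have e : Real.exp (-h) * ((∑' w : List Bool, GJ g (R * Real.exp h) (desc w P)) +
      ∑' w : List Bool, GJ g (R * Real.exp h) (desc w (Tw P))) -
      ((∑' w : List Bool, GJ g R (desc w P)) + ∑' w : List Bool, GJ g R (desc w (Tw P))) =
      (Real.exp (-h) * (∑' w, GJ g (R * Real.exp h) (desc w P)) - ∑' w, GJ g R (desc w P)) +
      (Real.exp (-h) * (∑' w, GJ g (R * Real.exp h) (desc w (Tw P))) -
        ∑' w, GJ g R (desc w (Tw P))) := by
    ring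
  rw [e]
  refine (abs_add_le _ _).trans ?_
  linarith

end SF
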