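import Mathlib
import Pool.Agent.helper1.SF.SpecA

/-! Module ZSA: the integrated remainder. -/

set_option autoImplicit false

namespace SF

open MeasureTheory Set

theorem ZSA_dz {κ : ℝ} {g : ℝ → ℝ} (h : Pk κ g) {σ : ℝ} (hσ : deriv g σ ≠ 0) :
    1 + κ ≤ σ ∧ σ ≤ 1 + 8 * κ := by
  obtain ⟨-, -, -, hz⟩ := h
  constructor
  · by_contra hc
    push Not at hc
    apply hσ
    have : g =ᶠ[nhds σ] fun _ => 0 := by
      filter_upwards [Iio_mem_nhds hc] with a ha
      exact hz a (Or.inl (le_of_lt ha))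
    rw [this.deriv_eq]
    simp
  · by_contra hc
    push Not at hc
    apply hσ
    have : g =ᶠ[nhds σ] fun _ => 0 := by
      filter_upwards [Ioi_mem_nhds hc] with a ha
      exact hz a (Or.inr (le_of_lt ha))
    rw [this.deriv_eq]
    simp

theorem ZSA_Acont (l l' : ℝ) (hl : 1 ≤ l) (v : ℤ × ℤ) : Continuous (Av l l' v) := by
  unfold Av nv BB
  apply Continuous.div
  · fun_prop
  · fun_prop
  · intro y
    have : 0 < l ^ 2 := by positivity
    positivity

/-- the integrand -/
noncomputable def ZSA_F (g : ℝ → ℝ) (l l' : ℝ) (v : ℤ × ℤ) (p : ℝ × ℝ) : ℝ :=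
  |deriv g p.2| * (1 / √(p.2 - Av l l' v p.1))

theorem ZSA_meas (g : ℝ → ℝ) (l l' : ℝ) (hl : 1 ≤ l) (v : ℤ × ℤ) :
    Measurable (ZSA_F g l l' v) := by
  unfold ZSA_F
  have h1 : Measurable (fun p : ℝ × ℝ => |deriv g p.2|) :=
    ((measurable_deriv g).comp measurable_snd).abs
  have h2 : Measurable (fun p : ℝ × ℝ => Av l l' v p.1) :=
    (ZSA_Acont l l' hl v).measurable.comp measurable_fst
  exact h1.mul (measurable_const.div ((measurable_snd.sub h2).sqrt))

theorem ZSA (hZSB : ZSB_stmt) : ZSA_stmt := by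
  obtain ⟨C, hC, hZ⟩ := hZSB
  refine ⟨C, hC, ?_⟩
  intro κ g l l' δ y0 hk hl hl' hδ hδ1 hy0 hy1 hNR hkd T
  set K : ℝ := C * (l + l') ^ 4 * Real.log (1 / y0) / √δ with hK
  have hcont : Continuous (deriv g) := hk.1.smooth.continuous_deriv (by simp)
  -- condition of ZSB on the support
  have hcond : ∀ σ : ℝ, deriv g σ ≠ 0 → 25 * (σ - 1) * (l + l') ^ 2 ≤ δ := by
    intro σ hσ
    have h := (ZSA_dz hk hσ).2
    have h2 : 25 * (σ - 1) ≤ 200 * κ := by linarith
    calc 25 * (σ - 1) * (l + l') ^ 2 ≤ 200 * κ * (l + l') ^ 2 := by gcongr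
      _ ≤ δ := hkd
  have hy01 : y0 ≤ 1 := by linarith
  have hsum : ∀ (S : Finset (ℤ × ℤ)) (σ : ℝ), σ ∈ Ioc (1 : ℝ) 2 → deriv g σ ≠ 0 →
      (∀ v ∈ S, Integrable (fun y => 1 / √(σ - Av l l' v y)) (volume.restrict (Ioc y0 1))) ∧
      ∑ v ∈ S, ∫ y in Ioc y0 1, 1 / √(σ - Av l l' v y) ≤ K := by
    intro S σ hσ hne
    obtain ⟨h1, h2⟩ := hZ l l' δ y0 σ hl hl' hδ hδ1 hy0 hy1 hNR hσ.1.le hσ.2 (hcond σ hne) S
    refine ⟨fun v hv => ?_, ?_⟩
    · exact (intervalIntegrable_iff_integrableOn_Ioc_of_le hy01).mp (h1 v hv)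
    · have : ∀ v ∈ S, ∫ y in Ioc y0 1, 1 / √(σ - Av l l' v y) =
          ∫ y in y0..1, 1 / √(σ - Av l l' v y) := by
        intro v _
        rw [intervalIntegral.integral_of_le hy01]
      rw [Finset.sum_congr rfl this]
      exact h2
  have hgi : Integrable (fun σ => |deriv g σ| * K) (volume.restrict (Ioc (1 : ℝ) 2)) := by
    have : IntegrableOn (fun σ => |deriv g σ| * K) (Icc (1 : ℝ) 2) :=
      (hcont.abs.mul continuous_const).continuousOn.integrableOn_Icc
    exact this.mono_set Ioc_subset_Icc_self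
  have hpt : ∀ (S : Finset (ℤ × ℤ)) (σ : ℝ), σ ∈ Ioc (1 : ℝ) 2 →
      (∀ v ∈ S, Integrable (fun y => ZSA_F g l l' v (y, σ)) (volume.restrict (Ioc y0 1))) ∧
      ∑ v ∈ S, ∫ y in Ioc y0 1, ZSA_F g l l' v (y, σ) ≤ |deriv g σ| * K := by
    intro S σ hσ
    by_cases hne : deriv g σ = 0
    · have hz : ∀ v : ℤ × ℤ, (fun y => ZSA_F g l l' v (y, σ)) = fun _ => 0 := by
        intro v
        funext y
        simp [ZSA_F, hne]
      refine ⟨fun v _ => ?_, ?_⟩
      · rw [hz v]
        exact integrable_zero _ _ _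
      · simp [hz, hne]
    · obtain ⟨h1, h2⟩ := hsum S σ hσ hne
      refine ⟨fun v hv => ?_, ?_⟩
      · have := (h1 v hv).const_mul |deriv g σ|
        exact this
      have : ∀ v ∈ S, ∫ y in Ioc y0 1, ZSA_F g l l' v (y, σ) =
          |deriv g σ| * ∫ y in Ioc y0 1, 1 / √(σ - Av l l' v y) := by
        intro v _
        simp only [ZSA_F]
        rw [integral_const_mul]
      rw [Finset.sum_congr rfl this, ← Finset.mul_sum]
      exact mul_le_mul_of_nonneg_left h2 (abs_nonneg _)
  have hFint : ∀ v : ℤ × ℤ, Integrable (ZSA_F g l l' v)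
      ((volume.restrict (Ioc y0 1)).prod (volume.restrict (Ioc (1 : ℝ) 2))) := by
    intro v
    have hm := ZSA_meas g l l' hl v
    rw [integrable_prod_iff' hm.aestronglyMeasurable]
    have hnn : ∀ p, ‖ZSA_F g l l' v p‖ = ZSA_F g l l' v p := by
      intro p
      rw [Real.norm_eq_abs, abs_of_nonneg]
      unfold ZSA_F
      positivity
    constructor
    · rw [ae_restrict_iff' measurableSet_Ioc]
      refine Filter.Eventually.of_forall (fun σ hσ => ?_)
      exact (hpt {v} σ hσ).1 v (by simp)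
    · refine Integrable.mono' hgi ?_ ?_
      · have := (hm.norm.stronglyMeasurable).integral_prod_left' (μ := volume.restrict (Ioc y0 1))
        exact this.aestronglyMeasurable
      · rw [ae_restrict_iff' measurableSet_Ioc]
        refine Filter.Eventually.of_forall (fun σ hσ => ?_)
        simp only [hnn]
        have hnn2 : 0 ≤ ∫ y in Ioc y0 1, ZSA_F g l l' v (y, σ) := by
          apply integral_nonneg
          intro y
          simp only [ZSA_F]
          positivity
        rw [Real.norm_eq_abs, abs_of_nonneg hnn2]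
        have := (hpt {v} σ hσ).2
        simpa using this
  have hMM : ∀ v : ℤ × ℤ, ∀ y : ℝ, MM g (Av l l' v y) =
      ∫ σ in Ioc (1 : ℝ) 2, ZSA_F g l l' v (y, σ) := by
    intro v y
    unfold MM ZSA_F
    rw [intervalIntegral.integral_of_le (by norm_num)]
    simp only [div_eq_mul_inv, one_mul]
  have hMMi : ∀ v : ℤ × ℤ, IntervalIntegrable (fun y => MM g (Av l l' v y)) volume y0 1 := by
    intro v
    rw [intervalIntegrable_iff_integrableOn_Ioc_of_le hy01]
    have := (hFint v).integral_prod_left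
    simp only [hMM]
    exact this
  refine ⟨?_, ?_⟩
  · have := IntervalIntegrable.sum T (f := fun v y => MM g (Av l l' v y)) (μ := volume)
      (a := y0) (b := 1) (fun v _ => hMMi v)
    have he : (∑ i ∈ T, fun y => MM g (Av l l' i y)) = fun y => ∑ v ∈ T, MM g (Av l l' v y) := by
      funext y
      rw [Finset.sum_apply]
    rw [he] at this
    exact this
  · rw [intervalIntegral.integral_finsetSum (fun v _ => hMMi v)]
    have h1 : ∀ v ∈ T, ∫ y in y0..1, MM g (Av l l' v y) =
        ∫ σ in Ioc (1 : ℝ) 2, ∫ y in Ioc y0 1, ZSA_F g l l' v (y, σ) := by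
      intro v _
      rw [intervalIntegral.integral_of_le hy01]
      simp only [hMM]
      exact integral_integral_swap (hFint v)
    rw [Finset.sum_congr rfl h1, ← integral_finsetSum]
    · have hr : K * ∫ σ in (1 : ℝ)..2, |deriv g σ| = ∫ σ in Ioc (1 : ℝ) 2, |deriv g σ| * K := by
        rw [intervalIntegral.integral_of_le (by norm_num), integral_mul_const, mul_comm]
      rw [hr]
      apply setIntegral_mono_on _ hgi measurableSet_Ioc
      · intro σ hσ
        exact (hpt T σ hσ).2
      · apply integrable_finsetSum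
        intro v _
        exact (hFint v).integral_prod_right
    · intro v _
      exact (hFint v).integral_prod_right

end SF
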