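import Pool.Agent.helper68.SF.SpecE

/-! DIV: a divergence theorem on the half fundamental domain, where only the sum `P_x + Q_y` has to be
bounded by `C / y²` (cutoff in `y`). -/

set_option autoImplicit false

namespace SF

open MeasureTheory Filter
open scoped ContDiff Topology

/-- a cutoff function -/
theorem DIV_cut : ∃ M : ℝ, 0 ≤ M ∧ ∀ R : ℝ, 1 ≤ R → ∃ χ χ' : ℝ → ℝ, Continuous χ ∧ Continuous χ' ∧
    (∀ y, HasDerivAt χ (χ' y) y) ∧ (∀ y, |χ y| ≤ 1) ∧ (∀ y, y < R → χ y = 1 ∧ χ' y = 0) ∧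
    (∀ y, 2 * R < y → χ y = 0 ∧ χ' y = 0) ∧ ∀ y, 0 < y → |χ' y| ≤ 2 * M / y := by
  have hs : ContDiff ℝ ∞ Real.smoothTransition := Real.smoothTransition.contDiff
  have hd : Differentiable ℝ Real.smoothTransition := hs.differentiable (by simp)
  have hc : Continuous (deriv Real.smoothTransition) := hs.continuous_deriv (by simp)
  have hneg : ∀ x < 0, deriv Real.smoothTransition x = 0 := by
    intro x hx
    have h1 : Real.smoothTransition =ᶠ[𝓝 x] fun _ => (0 : ℝ) := by
      filter_upwards [Iio_mem_nhds hx] with t ht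
      exact Real.smoothTransition.zero_of_nonpos (le_of_lt ht)
    rw [h1.deriv_eq]
    simp
  have hpos : ∀ x > 1, deriv Real.smoothTransition x = 0 := by
    intro x hx
    have h1 : Real.smoothTransition =ᶠ[𝓝 x] fun _ => (1 : ℝ) := by
      filter_upwards [Ioi_mem_nhds hx] with t ht
      exact Real.smoothTransition.one_of_one_le (le_of_lt ht)
    rw [h1.deriv_eq]
    simp
  obtain ⟨M, hM⟩ := isCompact_Icc.exists_bound_of_continuousOn (s := Set.Icc (0 : ℝ) 1)
    hc.continuousOn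
  have hMb : ∀ x, |deriv Real.smoothTransition x| ≤ |M| := by
    intro x
    rcases lt_or_ge x 0 with h | h
    · rw [hneg x h, abs_zero]
      exact abs_nonneg _
    rcases lt_or_ge 1 x with h' | h'
    · rw [hpos x h', abs_zero]
      exact abs_nonneg _
    · exact (hM x ⟨h, h'⟩).trans (le_abs_self M)
  refine ⟨|M|, abs_nonneg _, fun R hR => ?_⟩
  have hR0 : 0 < R := by linarith
  refine ⟨fun y => Real.smoothTransition (2 - y / R),
    fun y => deriv Real.smoothTransition (2 - y / R) * (-(1 / R)), ?_, ?_, ?_, ?_, ?_, ?_, ?_⟩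
  · exact Real.smoothTransition.continuous.comp (by fun_prop)
  · exact (hc.comp (by fun_prop)).mul continuous_const
  · intro y
    have h1 : HasDerivAt (fun y : ℝ => 2 - y / R) (-(1 / R)) y := by
      have := ((hasDerivAt_id y).div_const R).const_sub 2
      simpa using this
    exact (hd _).hasDerivAt.comp y h1
  · intro y
    rw [abs_of_nonneg (Real.smoothTransition.nonneg _)]
    exact Real.smoothTransition.le_one _
  · intro y hy
    have h1 : 1 < 2 - y / R := by
      have : y / R < 1 := (div_lt_one hR0).2 hy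
      linarith
    exact ⟨Real.smoothTransition.one_of_one_le h1.le, by
      show deriv Real.smoothTransition (2 - y / R) * (-(1 / R)) = 0
      rw [hpos _ h1, zero_mul]⟩
  · intro y hy
    have h1 : 2 - y / R < 0 := by
      have : 2 < y / R := (lt_div_iff₀ hR0).2 hy
      linarith
    exact ⟨Real.smoothTransition.zero_of_nonpos h1.le, by
      show deriv Real.smoothTransition (2 - y / R) * (-(1 / R)) = 0
      rw [hneg _ h1, zero_mul]⟩
  · intro y hy
    show |deriv Real.smoothTransition (2 - y / R) * (-(1 / R))| ≤ 2 * |M| / y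
    rcases lt_or_ge (2 * R) y with h | h
    · have h1 : 2 - y / R < 0 := by
        have : 2 < y / R := (lt_div_iff₀ hR0).2 h
        linarith
      rw [hneg _ h1, zero_mul, abs_zero]
      positivity
    · rw [abs_mul, abs_neg, abs_of_pos (by positivity : (0 : ℝ) < 1 / R), mul_one_div]
      calc |deriv Real.smoothTransition (2 - y / R)| / R ≤ |M| / R :=
            div_le_div_of_nonneg_right (hMb _) hR0.le
        _ = 2 * |M| / (2 * R) := by field_simp
        _ ≤ 2 * |M| / y := div_le_div_of_nonneg_left (by positivity) hy h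

theorem DIV_meas : MeasurableSet Dm := by
  have h : IsOpen Dm := by
    have h1 : IsOpen {p : ℝ × ℝ | 0 < p.1} := isOpen_lt continuous_const continuous_fst
    have h2 : IsOpen {p : ℝ × ℝ | p.1 < 1 / 2} := isOpen_lt continuous_fst continuous_const
    have h3 : IsOpen {p : ℝ × ℝ | 0 < p.2} := isOpen_lt continuous_const continuous_snd
    have h4 : IsOpen {p : ℝ × ℝ | 1 < p.1 ^ 2 + p.2 ^ 2} :=
      isOpen_lt continuous_const (by fun_prop)
    exact h1.inter (h2.inter (h3.inter h4))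
  exact h.measurableSet

theorem DIV_sub : Dm ⊆ {p : ℝ × ℝ | 0 < p.2} := fun _ hp => hp.2.2.1

/-- a continuous function which vanishes for large `y` is integrable on `Dm` -/
theorem DIV_int (hDI : DI_stmt) (H : ℝ × ℝ → ℝ) (hH : ContinuousOn H {p | 0 < p.2}) (R : ℝ)
    (h0 : ∀ p : ℝ × ℝ, 2 * R < p.2 → H p = 0) : IntegrableOn H Dm := by
  have hsub : Set.Icc (0 : ℝ) (1 / 2) ×ˢ Set.Icc (1 : ℝ) (2 * R) ⊆ {p : ℝ × ℝ | 0 < p.2} := by
    rintro p ⟨-, h2, -⟩
    exact lt_of_lt_of_le one_pos h2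
  obtain ⟨B, hB⟩ := (isCompact_Icc.prod isCompact_Icc).exists_bound_of_continuousOn (hH.mono hsub)
  refine hDI H (|B| * (2 * R) ^ 2) hH fun p hp hp2 => ?_
  rcases lt_or_ge (2 * R) p.2 with h | h
  · rw [h0 p h, abs_zero]
    positivity
  · have h1 := hB p ⟨⟨hp.1.le, hp.2.1.le⟩, hp2, h⟩
    rw [Real.norm_eq_abs] at h1
    have hp0 : 0 < p.2 := by linarith
    rw [le_div_iff₀ (by positivity)]
    have h2 : p.2 ^ 2 ≤ (2 * R) ^ 2 := pow_le_pow_left₀ hp0.le h 2
    calc |H p| * p.2 ^ 2 ≤ |B| * (2 * R) ^ 2 :=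
      mul_le_mul (h1.trans (le_abs_self B)) h2 (by positivity) (abs_nonneg _)

/-- DIV: divergence theorem. -/
theorem DIV (hDI : DI_stmt) (hDX : DX_stmt) (hDY : DY_stmt) (P P' Q Q' : ℝ × ℝ → ℝ)
    (hP' : ContinuousOn P' {p | 0 < p.2}) (hQc : ContinuousOn Q {p | 0 < p.2})
    (hQ' : ContinuousOn Q' {p | 0 < p.2})
    (hP : ∀ x y : ℝ, 0 < y → HasDerivAt (fun t => P (t, y)) (P' (x, y)) x)
    (hQ : ∀ x y : ℝ, 0 < y → HasDerivAt (fun t => Q (x, t)) (Q' (x, y)) y)
    (hP0 : ∀ y : ℝ, 0 < y → P (0, y) = 0 ∧ P (1 / 2, y) = 0)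
    (hPc : ∀ x y : ℝ, 0 < y → x ^ 2 + y ^ 2 = 1 → P (x, y) = 0)
    (hQ0 : ∀ x y : ℝ, 0 < y → x ^ 2 + y ^ 2 = 1 → Q (x, y) = 0)
    (hQb : ∃ C : ℝ, ∀ p ∈ Dm, 1 ≤ p.2 → |Q p| ≤ C / p.2)
    (hsb : ∃ C : ℝ, ∀ p ∈ Dm, 1 ≤ p.2 → |P' p + Q' p| ≤ C / p.2 ^ 2) :
    IntegrableOn (fun p => P' p + Q' p) Dm ∧ ∫ p in Dm, (P' p + Q' p) = 0 := by
  obtain ⟨C1, hC1⟩ := hQb
  obtain ⟨C2, hC2⟩ := hsb
  have hint : IntegrableOn (fun p => P' p + Q' p) Dm := hDI _ C2 (hP'.add hQ') hC2
  refine ⟨hint, ?_⟩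
  obtain ⟨M, hM0, hcut⟩ := DIV_cut
  choose! χ χ' c1 c2 c3 c4 c5 c6 c7 using fun n : ℕ => hcut ((n : ℝ) + 1)
    (by have : (0 : ℝ) ≤ n := n.cast_nonneg
        linarith)
  set U : Set (ℝ × ℝ) := {p | 0 < p.2} with hU
  have k1 : ∀ n, ContinuousOn (fun p : ℝ × ℝ => χ n p.2) U := fun n =>
    ((c1 n).comp continuous_snd).continuousOn
  have k2 : ∀ n, ContinuousOn (fun p : ℝ × ℝ => χ' n p.2) U := fun n =>
    ((c2 n).comp continuous_snd).continuousOn
  have hz : ∀ n, ∫ p in Dm, (χ n p.2 * (P' p + Q' p) + χ' n p.2 * Q p) = 0 := by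
    intro n
    have i1 : IntegrableOn (fun p : ℝ × ℝ => χ n p.2 * P' p) Dm :=
      DIV_int hDI _ ((k1 n).mul hP') ((n : ℝ) + 1) fun p hp => by
        rw [(c6 n p.2 hp).1, zero_mul]
    have i2 : IntegrableOn (fun p : ℝ × ℝ => χ' n p.2 * Q p + χ n p.2 * Q' p) Dm :=
      DIV_int hDI _ (((k2 n).mul hQc).add ((k1 n).mul hQ')) ((n : ℝ) + 1) fun p hp => by
        rw [(c6 n p.2 hp).1, (c6 n p.2 hp).2, zero_mul, zero_mul, add_zero]
    have e1 := hDX (fun p => χ n p.2 * P p) (fun p => χ n p.2 * P' p) ((k1 n).mul hP')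
      (fun x y hy => (hP x y hy).const_mul (χ n y))
      (fun y hy => ⟨by show χ n y * P (0, y) = 0; rw [(hP0 y hy).1, mul_zero],
        by show χ n y * P (1 / 2, y) = 0; rw [(hP0 y hy).2, mul_zero]⟩)
      (fun x y hy h => by show χ n y * P (x, y) = 0; rw [hPc x y hy h, mul_zero]) i1
    have e2 := hDY (fun p => χ n p.2 * Q p) (fun p => χ' n p.2 * Q p + χ n p.2 * Q' p)
      (((k2 n).mul hQc).add ((k1 n).mul hQ'))
      (fun x y hy => (c3 n y).mul (hQ x y hy))
      (fun x y hy h => by show χ n y * Q (x, y) = 0; rw [hQ0 x y hy h, mul_zero])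
      (fun x => by
        refine tendsto_const_nhds.congr' ?_
        filter_upwards [eventually_gt_atTop (2 * ((n : ℝ) + 1))] with y hy
        show (0 : ℝ) = χ n y * Q (x, y)
        rw [(c6 n y hy).1, zero_mul]) i2
    have e3 : ∫ p in Dm, (χ n p.2 * (P' p + Q' p) + χ' n p.2 * Q p) =
        (∫ p in Dm, χ n p.2 * P' p) + ∫ p in Dm, (χ' n p.2 * Q p + χ n p.2 * Q' p) := by
      rw [← integral_add i1 i2]
      refine integral_congr_ae (Eventually.of_forall fun p => ?_)
      show χ n p.2 * (P' p + Q' p) + χ' n p.2 * Q p =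
        χ n p.2 * P' p + (χ' n p.2 * Q p + χ n p.2 * Q' p)
      ring
    rw [e3, e1, e2, add_zero]
  have hbint : IntegrableOn (fun p : ℝ × ℝ => |P' p + Q' p| + 2 * M / p.2 * |Q p|) Dm := by
    refine hDI _ (C2 + 2 * M * C1) ?_ ?_
    · refine ((hP'.add hQ').abs).add (ContinuousOn.mul ?_ hQc.abs)
      exact continuousOn_const.div continuous_snd.continuousOn fun p hp => ne_of_gt hp
    · intro p hp hp2
      have hp0 : 0 < p.2 := by linarith
      have h1 := hC1 p hp hp2
      have h2 := hC2 p hp hp2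
      rw [abs_of_nonneg (by positivity)]
      calc |P' p + Q' p| + 2 * M / p.2 * |Q p| ≤ C2 / p.2 ^ 2 + 2 * M / p.2 * (C1 / p.2) :=
            add_le_add h2 (mul_le_mul_of_nonneg_left h1 (by positivity))
        _ = (C2 + 2 * M * C1) / p.2 ^ 2 := by field_simp
  have hlim := tendsto_integral_of_dominated_convergence
    (μ := volume.restrict Dm) (F := fun n (p : ℝ × ℝ) =>
      χ n p.2 * (P' p + Q' p) + χ' n p.2 * Q p) (f := fun p => P' p + Q' p)
    (fun p : ℝ × ℝ => |P' p + Q' p| + 2 * M / p.2 * |Q p|)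
    (fun n => ((((k1 n).mul (hP'.add hQ')).add ((k2 n).mul hQc)).mono
      DIV_sub).aestronglyMeasurable DIV_meas) hbint
    (fun n => by
      filter_upwards [ae_restrict_mem DIV_meas] with p hp
      have hp0 : 0 < p.2 := hp.2.2.1
      rw [Real.norm_eq_abs]
      calc |χ n p.2 * (P' p + Q' p) + χ' n p.2 * Q p|
          ≤ |χ n p.2 * (P' p + Q' p)| + |χ' n p.2 * Q p| := abs_add_le _ _
        _ = |χ n p.2| * |P' p + Q' p| + |χ' n p.2| * |Q p| := by rw [abs_mul, abs_mul]
        _ ≤ 1 * |P' p + Q' p| + 2 * M / p.2 * |Q p| :=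
            add_le_add (mul_le_mul_of_nonneg_right (c4 n _) (abs_nonneg _))
              (mul_le_mul_of_nonneg_right (c7 n _ hp0) (abs_nonneg _))
        _ = |P' p + Q' p| + 2 * M / p.2 * |Q p| := by rw [one_mul])
    (by
      refine Eventually.of_forall fun p => ?_
      refine tendsto_const_nhds.congr' ?_
      obtain ⟨N, hN⟩ := exists_nat_gt p.2
      filter_upwards [eventually_ge_atTop N] with n hn
      have hlt : p.2 < (n : ℝ) + 1 := by
        have : (N : ℝ) ≤ n := by exact_mod_cast hn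
        linarith
      rw [(c5 n p.2 hlt).1, (c5 n p.2 hlt).2, one_mul, zero_mul, add_zero])
  have hlim2 : Tendsto (fun n : ℕ => ∫ p in Dm, (χ n p.2 * (P' p + Q' p) + χ' n p.2 * Q p)) atTop
      (𝓝 0) := by
    refine tendsto_const_nhds.congr fun n => ?_
    exact (hz n).symm
  exact tendsto_nhds_unique hlim hlim2

end SF
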